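import Mathlib
import Pool.Agent.H870R2.LS.BFinal

/-! Undirected and directed switching networks for directed connectivity, symmetric only under the
even permutations inside blocks of vertices. -/

namespace Pool.Agent.H870R2.LS

open Finset Relation

theorem fixed_blocks {r c k : ℕ} (hr : 2 ^ (4 * (c + 1) + k - 2) ≤ r) :
    ∃ q₀ : ℕ, ∀ q, q₀ ≤ q → ∀ (Q : Type) (_ : Fintype Q)
      (N : SwNet ((Fin r × Fin q) ⊕ Bool) Q
        (Set.range (Function.Embedding.inl : Fin r × Fin q ↪ (Fin r × Fin q) ⊕ Bool))ᶜ k),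
      N.SymBlocks Function.Embedding.inl →
      (∀ G : (Fin r × Fin q) ⊕ Bool → (Fin r × Fin q) ⊕ Bool → Prop,
        (∀ v, ¬ TransGen G v v) →
        (EqvGen (N.pass G) N.start N.acc ↔
          ReflTransGen G (Sum.inr false) (Sum.inr true))) →
      (r * q + 2) ^ c < Fintype.card Q := by
  refine ⟨2 ^ (16 * (c + 1) + 16) + 3 * (4 * (c + 1) + k) + (r + 1) ^ c + 2, ?_⟩
  intro q hq Q _ N hsym hN
  have hst : (Sum.inr false : (Fin r × Fin q) ⊕ Bool) ≠ Sum.inr true := by simp
  have hs : (Sum.inr false : (Fin r × Fin q) ⊕ Bool) ∉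
      Set.range (Function.Embedding.inl : Fin r × Fin q ↪ (Fin r × Fin q) ⊕ Bool) := by
    rintro ⟨x, hx⟩
    exact absurd hx (by simp)
  have ht : (Sum.inr true : (Fin r × Fin q) ⊕ Bool) ∉
      Set.range (Function.Embedding.inl : Fin r × Fin q ↪ (Fin r × Fin q) ⊕ Bool) := by
    rintro ⟨x, hx⟩
    exact absurd hx (by simp)
  have hq1 : 2 ^ (16 * (c + 1) + 16) ≤ q :=
    le_trans (le_trans (Nat.le_add_right _ _) (le_trans (Nat.le_add_right _ _)
      (Nat.le_add_right _ _))) hq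
  have hq2 : 3 * (4 * (c + 1) + k) ≤ q :=
    le_trans (le_trans (Nat.le_add_left _ _) (le_trans (Nat.le_add_right _ _)
      (Nat.le_add_right _ _))) hq
  have hq3 : 2 ≤ q := le_trans (Nat.le_add_left _ _) hq
  have hq4 : (r + 1) ^ c + 1 ≤ q := by
    refine le_trans ?_ hq
    rw [Nat.add_assoc _ _ 2]
    refine le_trans ?_ (Nat.le_add_left _ _)
    exact Nat.add_le_add_left (by norm_num) _
  have h1 : q ^ (c + 1) ≤ Fintype.card Q :=
    undirected_lower (m := c + 1) Function.Embedding.inl N hsym hst hs ht hN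
      (Nat.succ_le_succ (Nat.zero_le c)) hr hq1 hq2
  have h2 : r * q + 2 ≤ (r + 1) * q := by
    rw [Nat.add_mul, one_mul]
    exact Nat.add_le_add_left hq3 _
  calc (r * q + 2) ^ c ≤ ((r + 1) * q) ^ c := Nat.pow_le_pow_left h2 c
    _ = (r + 1) ^ c * q ^ c := mul_pow _ _ _
    _ < q * q ^ c := by
        exact Nat.mul_lt_mul_of_pos_right hq4 (pow_pos (lt_of_lt_of_le (by norm_num) hq3) c)
    _ = q ^ (c + 1) := by rw [pow_succ, mul_comm]
    _ ≤ _ := h1

/-- **Locally symmetric switching networks for directed connectivity.** -/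
theorem _root_.Pool.Agent.Results.MP_e46137_lc.LocalSymmetry.result :
    -- (1) undirected networks, symmetric under the even permutations inside `r` blocks of `q` vertices
    (∀ (V Q : Type) (_ : Fintype Q) (r q k m : ℕ) (ι : Fin r × Fin q ↪ V)
      (N : SwNet V Q (Set.range ι)ᶜ k) (s t : V), N.SymBlocks ι → s ≠ t →
      s ∉ Set.range ι → t ∉ Set.range ι →
      (∀ G : V → V → Prop, (∀ v, ¬ TransGen G v v) →
        (EqvGen (N.pass G) N.start N.acc ↔ ReflTransGen G s t)) →
      1 ≤ m → 2 ^ (4 * m + k - 2) ≤ r → 2 ^ (16 * m + 16) ≤ q → 3 * (4 * m + k) ≤ q →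
      q ^ m ≤ Fintype.card Q) ∧
    -- (2) symmetry on a bounded number of blocks excludes `|V| ^ c` nodes
    (∀ r c k : ℕ, 2 ^ (4 * (c + 1) + k - 2) ≤ r →
      ∃ q₀ : ℕ, ∀ q, q₀ ≤ q → ∀ (Q : Type) (_ : Fintype Q)
        (N : SwNet ((Fin r × Fin q) ⊕ Bool) Q
          (Set.range (Function.Embedding.inl : Fin r × Fin q ↪ (Fin r × Fin q) ⊕ Bool))ᶜ k),
        N.SymBlocks Function.Embedding.inl →
        (∀ G : (Fin r × Fin q) ⊕ Bool → (Fin r × Fin q) ⊕ Bool → Prop,
          (∀ v, ¬ TransGen G v v) →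
          (EqvGen (N.pass G) N.start N.acc ↔
            ReflTransGen G (Sum.inr false) (Sum.inr true))) →
        (r * q + 2) ^ c < Fintype.card Q) ∧
    -- (3) directed networks
    (∀ (V : Type) (_ : Fintype V) (_ : DecidableEq V) (s t : V), ∃ N : SwNet V V ∅ 2,
      (∀ p : Equiv.Perm V, p s = s → p t = t → N.IsAut p p) ∧
      ∀ G : V → V → Prop, ReflTransGen (N.pass G) N.start N.acc ↔ ReflTransGen G s t) := by
  refine ⟨?_, ?_, ?_⟩
  · intro V Q _ r q k m ι N s t hsym hst hs ht hN hm hr hq hqk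
    exact undirected_lower ι N hsym hst hs ht hN hm hr hq hqk
  · intro r c k hr
    exact fixed_blocks hr
  · intro V _ _ s t
    exact ⟨dirNet V s t, fun p hs ht => dirNet_aut V s t p hs ht, fun G => Iff.rfl⟩

end Pool.Agent.H870R2.LS
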