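import Pool.Agent.H564R3.SV.Main
import Pool.Agent.H564R3.SV.Good
import Pool.Agent.H564R3.SV.Upper
import Pool.Agent.H564R3.TS.Real

/-!
Shortest paths with few registers: Savitch's recursion is optimal among pure dynamic programs.
-/

set_option autoImplicit false

namespace Pool.Agent.Results.MP_e46137_lc.SavitchOptimal

open Finset
open scoped NNReal
open Pool.Agent.H564R3.PW (Instr exec syms)
open Pool.Agent.H564R3.TS
open Pool.Agent.H564R3.SV

/-- The (min,+) program `p`, whose constants are real numbers or infinity, writes into register `o`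
the length of a shortest path through the `n + 1` layers, for all weights in the natural
numbers. -/
def SolvesMin {n m : ℕ} {ρ : Type} [DecidableEq ρ]
    (p : List (Instr (Tropical (WithTop ℝ)) (Fin n × Fin m × Fin m) ρ)) (o : ρ) : Prop :=
  ∀ w : Fin n × Fin m × Fin m → ℕ,
    exec (fun x => Tropical.trop (((w x : ℕ) : ℝ) : WithTop ℝ)) p o =
      pathSum (fun x => Tropical.trop (((w x : ℕ) : ℝ) : WithTop ℝ))

/-- The program `p` over the nonnegative reals computes the path polynomial. -/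
def SolvesSum {n m : ℕ} {ρ : Type} [DecidableEq ρ]
    (p : List (Instr ℝ≥0 (Fin n × Fin m × Fin m) ρ)) (o : ρ) : Prop :=
  ∀ w : Fin n × Fin m × Fin m → ℝ≥0, exec w p o = pathSum w

theorem lowerMin {n m : ℕ} (hn : 1 ≤ n) (hm : 1 ≤ m) {ρ : Type} [Fintype ρ] [DecidableEq ρ]
    (p : List (Instr (Tropical (WithTop ℝ)) (Fin n × Fin m × Fin m) ρ)) (o : ρ)
    (h : SolvesMin p o) :
    m ^ Nat.clog 2 n ≤
      2 * p.length * ((Nat.clog 2 p.length + 1) * Fintype.card ρ) ^ Nat.clog 2 n := by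
  classical
  have hne : (univ.image (pset (n := n) (m := m))).Nonempty :=
    ⟨pset (fun _ => ⟨0, hm⟩), mem_image_of_mem _ (mem_univ _)⟩
  have hcard : ∀ A ∈ univ.image (pset (n := n) (m := m)), A.card = n := by
    intro A hA
    rw [mem_image] at hA
    obtain ⟨φ, _, rfl⟩ := hA
    exact path_card φ
  obtain ⟨g1, g2⟩ := good_trop_sum _ hne n hcard p o (by
    intro w
    rw [h w, path_sum hn])
  refine savitch_lower hn hm p o g1 g2 ?_
  rcases p with _ | ⟨a, l⟩
  · have h1 := g1 _ (mem_image_of_mem (pset (n := n) (m := m)) (mem_univ (fun _ => ⟨0, hm⟩)))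
    have h2 : syms ([] : List (Instr (Tropical (WithTop ℝ)) (Fin n × Fin m × Fin m) ρ)) o = ∅ :=
      rfl
    rw [h2] at h1
    exact absurd h1 (Set.notMem_empty _)
  · simp

theorem lowerSum {n m : ℕ} (hn : 1 ≤ n) (hm : 1 ≤ m) {ρ : Type} [Fintype ρ] [DecidableEq ρ]
    (p : List (Instr ℝ≥0 (Fin n × Fin m × Fin m) ρ)) (o : ρ) (h : SolvesSum p o) :
    m ^ Nat.clog 2 n ≤
      2 * p.length * ((Nat.clog 2 p.length + 1) * Fintype.card ρ) ^ Nat.clog 2 n := by
  classical
  have hcard : ∀ A ∈ univ.image (pset (n := n) (m := m)), A.card = n := by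
    intro A hA
    rw [mem_image] at hA
    obtain ⟨φ, _, rfl⟩ := hA
    exact path_card φ
  obtain ⟨g1, g2⟩ := good_nn _ n hcard p o (by
    intro w
    rw [h w, path_sum hn])
  refine savitch_lower hn hm p o g1 g2 ?_
  rcases p with _ | ⟨a, l⟩
  · have h1 := g1 _ (mem_image_of_mem (pset (n := n) (m := m)) (mem_univ (fun _ => ⟨0, hm⟩)))
    have h2 : syms ([] : List (Instr ℝ≥0 (Fin n × Fin m × Fin m) ρ)) o = ∅ := rfl
    rw [h2] at h1
    exact absurd h1 (Set.notMem_empty _)
  · simp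

/-- **Savitch's recursion is optimal among pure dynamic programs.** -/
theorem result :
    (∀ (n m : ℕ) (ρ : Type) [Fintype ρ] [DecidableEq ρ], 1 ≤ n → 1 ≤ m →
      (∀ (p : List (Instr (Tropical (WithTop ℝ)) (Fin n × Fin m × Fin m) ρ)) (o : ρ),
        SolvesMin p o → m ^ Nat.clog 2 n ≤
          2 * p.length * ((Nat.clog 2 p.length + 1) * Fintype.card ρ) ^ Nat.clog 2 n) ∧
      (∀ (p : List (Instr ℝ≥0 (Fin n × Fin m × Fin m) ρ)) (o : ρ),
        SolvesSum p o → m ^ Nat.clog 2 n ≤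
          2 * p.length * ((Nat.clog 2 p.length + 1) * Fintype.card ρ) ^ Nat.clog 2 n)) ∧
    (∀ (R : Type) [CommSemiring R] (h a b : ℕ),
      ∃ (ρ : Type) (_ : Fintype ρ) (_ : DecidableEq ρ)
        (p : List (Instr R (Fin (2 ^ h) × Fin (a * b) × Fin (a * b)) ρ)) (o : ρ),
        Fintype.card ρ = (h + 2) * b + 3 ∧ p.length ≤ 10 * (a * b) ^ 2 * (2 * a) ^ h ∧
        ∀ w : Fin (2 ^ h) × Fin (a * b) × Fin (a * b) → R, exec w p o = pathSum w) := by
  refine ⟨?_, ?_⟩
  · intro n m ρ _ _ hn hm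
    exact ⟨fun p o h => lowerMin hn hm p o h, fun p o h => lowerSum hn hm p o h⟩
  · intro R _ h a b
    exact path_upper h a b

end Pool.Agent.Results.MP_e46137_lc.SavitchOptimal
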