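import Mathlib
import Pool.Agent.H534R2.SymNet
import Pool.Agent.H534R2.SymUpper

namespace H534R2.SymSw

open Equiv Relation

/-- Symmetric switching networks for directed `s`-`t` connectivity: directed networks of linear size
exist, while undirected ones need size `n ^ Ω(log n)` (even if they are only required to be
correct on acyclic digraphs and only to be invariant under permutations of `n` of the vertices),
and `N ^ O(log N)` is enough. -/
theorem _root_.Pool.Agent.Results.MP_e46137_lc.SymmetricNetworks.result :
    -- directed networks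
    (∀ (n : ℕ) (M : Type) (_ : Fintype M) (s t : M),
      ∃ (Q : Type) (_ : Fintype Q) (_ : MulAction (Perm (Fin n)) Q) (N : SymNetwork n 2 M Q),
        Fintype.card Q = n + Fintype.card M ∧
        ∀ G : Vx n M → Vx n M → Prop,
          ReflTransGen (N.pass G) N.start N.acc ↔ ReflTransGen G (Sum.inr s) (Sum.inr t)) ∧
    -- undirected networks, lower bound
    (∀ (n k : ℕ) (M Q : Type) (_ : Fintype Q) (_ : MulAction (Perm (Fin n)) Q)
      (N : SymNetwork n k M Q) (s t : M), 2 ^ 32 ≤ n → k ≤ Nat.log 2 n / 8 → s ≠ t →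
      (∀ G : Vx n M → Vx n M → Prop, (∀ v, ¬ TransGen G v v) →
        (EqvGen (N.pass G) N.start N.acc ↔ ReflTransGen G (Sum.inr s) (Sum.inr t))) →
      n ^ (Nat.log 2 n / 16) ≤ Fintype.card Q) ∧
    -- undirected networks, upper bound
    (∀ (n : ℕ) (M : Type) (_ : Fintype M) (s t : M), 4 ≤ n + Fintype.card M →
      ∃ (Q : Type) (_ : Fintype Q) (_ : MulAction (Perm (Fin n)) Q) (N : SymNetwork n 2 M Q),
        Fintype.card Q ≤ (n + Fintype.card M) ^ (16 * Nat.log 2 (n + Fintype.card M)) ∧
        ∀ G : Vx n M → Vx n M → Prop,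
          EqvGen (N.pass G) N.start N.acc ↔ ReflTransGen G (Sum.inr s) (Sum.inr t)) := by
  refine ⟨?_, ?_, ?_⟩
  · intro n M _ s t
    refine ⟨Vx n M, inferInstance, inferInstance, dirNet s t, ?_, fun G => Iff.rfl⟩
    rw [Fintype.card_sum, Fintype.card_fin]
  · intro n k M Q _ _ N s t hn hk hst hN
    exact lower_bound hn hk N hst hN
  · intro n M _ s t hN
    refine ⟨St n M (Nat.log 2 (n + Fintype.card M) + 1), inferInstance, inferInstance,
      undNet _ s t, stCard' hN, fun G => ?_⟩
    exact undNet_correct (Nat.lt_pow_succ_log_self (by norm_num) _).le s t G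

end H534R2.SymSw
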